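import Pool.Agent.H447R2.CP.Trans

/-!
# Choice of parameters
-/

namespace H447CP

open Filter Real

/-- A polynomial in `⌈log N⌉` is eventually at most a power of `log N`, which is small. -/
lemma ev_bound (K b : ℕ) : ∃ N₀ : ℕ, ∀ N : ℕ, N₀ ≤ N →
    1 ≤ Real.log N ∧ (K : ℝ) * (⌈Real.log N⌉₊ : ℝ) ^ b ≤ (Real.log N) ^ (b + 1) ∧
      (Real.log N) ^ (b + 1) < Real.exp (Real.log N / 2) := by
  have hlog : Tendsto (fun N : ℕ => Real.log N) atTop atTop :=
    Real.tendsto_log_atTop.comp tendsto_natCast_atTop_atTop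
  have h1 : ∀ᶠ x : ℝ in atTop, 1 ≤ x := eventually_ge_atTop 1
  have h2 : ∀ᶠ x : ℝ in atTop, (K : ℝ) * 2 ^ b ≤ x := eventually_ge_atTop _
  have h3 : ∀ᶠ x : ℝ in atTop, x ^ (b + 1) < Real.exp (x / 2) := by
    have h4 : (fun x : ℝ => x ^ (b + 1)) =o[atTop] fun x => Real.exp ((1 / 2 : ℝ) * x) :=
      isLittleO_pow_exp_pos_mul_atTop (b + 1) (by norm_num)
    have h5 := h4.bound (show (0 : ℝ) < 1 / 2 by norm_num)
    filter_upwards [h5, eventually_ge_atTop (0 : ℝ)] with x hx hx0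
    rw [Real.norm_of_nonneg (by positivity), Real.norm_of_nonneg (Real.exp_pos _).le] at hx
    have h6 : (1 / 2 : ℝ) * x = x / 2 := by ring
    rw [h6] at hx
    have := Real.exp_pos (x / 2)
    linarith
  have h7 : ∀ᶠ x : ℝ in atTop, 1 ≤ x ∧ (K : ℝ) * (⌈x⌉₊ : ℝ) ^ b ≤ x ^ (b + 1) ∧
      x ^ (b + 1) < Real.exp (x / 2) := by
    filter_upwards [h1, h2, h3] with x hx1 hx2 hx3
    refine ⟨hx1, ?_, hx3⟩
    have h8 : (⌈x⌉₊ : ℝ) ≤ 2 * x := by
      have := (Nat.ceil_lt_add_one (show (0 : ℝ) ≤ x by linarith)).le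
      linarith
    calc (K : ℝ) * (⌈x⌉₊ : ℝ) ^ b ≤ K * (2 * x) ^ b := by gcongr
      _ = (K * 2 ^ b) * x ^ b := by rw [mul_pow]; ring
      _ ≤ x * x ^ b := by
          apply mul_le_mul_of_nonneg_right hx2; positivity
      _ = x ^ (b + 1) := by ring
  obtain ⟨N₀, hN₀⟩ := (eventually_atTop.mp (hlog.eventually h7))
  exact ⟨N₀, fun N hN => hN₀ N hN⟩

theorem params (κ a : ℕ) (hκ : 1 ≤ κ) : ∃ c N₀ : ℕ, ∀ N t w : ℕ, N₀ ≤ N → 1 ≤ t →
    (t : ℝ) ≤ Real.log N / 2 → (w : ℝ) ≤ (Real.log N) ^ a →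
    ∃ (q d s L l : ℕ) (R : ℝ), q.Prime ∧ q ^ κ ≤ 3 * s ∧ 2 * s ≤ q ^ κ ∧ 0 < s ∧ 3 ≤ q ^ d ∧
      (κ + 1) * q ^ (d + κ + 2) < N ∧ 0 < L ∧ 2 * L * d ≤ q ∧ L < (q ^ (d + 1)) ^ κ ∧ 0 < l ∧
      Real.exp 1 ≤ R ∧ (2 * R ^ t) ^ l ≤ ((((q ^ (d + 1)) ^ κ : ℕ) : ℝ) / L) ^ (l - 1) ∧
      (R * 2 ^ w) ^ (t * l) < Real.exp (L / 6) ∧
      (N : ℝ) ^ (1 + (κ : ℝ) / t) / (Real.log N) ^ c ≤ (t * q ^ (d + 1) : ℕ) * R / Real.exp 1 := by
  -- the polynomial
  set K : ℕ := ((κ + 1) * (52 * κ ^ 2) ^ (κ + 2)) ^ (κ + 1) * (195 * κ ^ 2) with hK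
  set b : ℕ := (a + 3) * (κ + 2) * (κ + 1) + (a + 2) with hb
  obtain ⟨N₀, hN₀⟩ := ev_bound K b
  refine ⟨b + 1, max N₀ 1, ?_⟩
  intro N t w hN ht htx hwx
  obtain ⟨hx1, hxK, hxexp⟩ := hN₀ N (le_trans (le_max_left _ _) hN)
  have hN1 : 1 ≤ N := le_trans (le_max_right _ _) hN
  have hNpos : (0 : ℝ) < N := by exact_mod_cast hN1
  set x := Real.log N with hx
  have hexpx : Real.exp x = N := Real.exp_log hNpos
  set Λ := ⌈x⌉₊ with hΛ
  have hxΛ : x ≤ Λ := Nat.le_ceil x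
  have hΛ1 : 1 ≤ Λ := by
    have : (1 : ℝ) ≤ Λ := hx1.trans hxΛ
    exact_mod_cast this
  have hΛ1R : (1 : ℝ) ≤ Λ := by exact_mod_cast hΛ1
  have hκR : (1 : ℝ) ≤ κ := by exact_mod_cast hκ
  have htR : (1 : ℝ) ≤ t := by exact_mod_cast ht
  -- L
  set L := 13 * κ ^ 2 * Λ ^ (a + 2) with hL
  have hLpos : 0 < L := by rw [hL]; positivity
  -- q
  obtain ⟨q, hqprime, hq1, hq2⟩ := Nat.exists_prime_lt_and_le_two_mul (2 * L * Λ)
    (by positivity)
  have hLge : 13 ≤ L := by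
    rw [hL]
    have h1 : 1 ≤ κ ^ 2 := Nat.one_le_pow _ _ hκ
    have h2 : 1 ≤ Λ ^ (a + 2) := Nat.one_le_pow _ _ hΛ1
    nlinarith
  have hq3 : 3 ≤ q := by nlinarith
  have hqpos : 0 < q := by omega
  have hq4 : q ≤ 52 * κ ^ 2 * Λ ^ (a + 3) := by
    calc q ≤ 2 * (2 * L * Λ) := hq2
      _ = 52 * κ ^ 2 * Λ ^ (a + 3) := by rw [hL]; ring
  -- the polynomial bound
  set E1 := (κ + 1) * q ^ (κ + 2) with hE1
  have hE1pos : 0 < E1 := by rw [hE1]; positivity
  have hPoly : E1 ^ (κ + 1) * (15 * L) ≤ K * Λ ^ b := by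
    have h1 : q ^ (κ + 2) ≤ (52 * κ ^ 2 * Λ ^ (a + 3)) ^ (κ + 2) := Nat.pow_le_pow_left hq4 _
    have h2 : E1 ≤ (κ + 1) * (52 * κ ^ 2) ^ (κ + 2) * Λ ^ ((a + 3) * (κ + 2)) := by
      calc E1 ≤ (κ + 1) * (52 * κ ^ 2 * Λ ^ (a + 3)) ^ (κ + 2) := Nat.mul_le_mul_left _ h1
        _ = _ := by rw [mul_pow (52 * κ ^ 2), ← pow_mul, mul_assoc]
    calc E1 ^ (κ + 1) * (15 * L)
        ≤ ((κ + 1) * (52 * κ ^ 2) ^ (κ + 2) * Λ ^ ((a + 3) * (κ + 2))) ^ (κ + 1) * (15 * L) :=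
          Nat.mul_le_mul_right _ (Nat.pow_le_pow_left h2 _)
      _ = K * Λ ^ b := by
          rw [hK, hb, hL, mul_pow ((κ + 1) * (52 * κ ^ 2) ^ (κ + 2)), ← pow_mul Λ, pow_add Λ]
          ring
  have hPolyR : (E1 : ℝ) ^ (κ + 1) * (15 * L) ≤ x ^ (b + 1) := by
    have h1 : ((E1 ^ (κ + 1) * (15 * L) : ℕ) : ℝ) ≤ ((K * Λ ^ b : ℕ) : ℝ) := by
      exact_mod_cast hPoly
    push_cast at h1
    exact h1.trans hxK
  -- sqrt N
  set y := Real.exp (x / 2) with hy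
  have hyy : y * y = N := by
    rw [hy, ← Real.exp_add, ← hexpx]; congr 1; ring
  have hE1R : (1 : ℝ) ≤ E1 := by exact_mod_cast hE1pos
  have hLR : (1 : ℝ) ≤ L := by exact_mod_cast hLpos
  have hPy : (E1 : ℝ) ^ (κ + 1) * (15 * L) < y := lt_of_le_of_lt hPolyR hxexp
  have hE1pow : (E1 : ℝ) ≤ (E1 : ℝ) ^ (κ + 1) := by
    calc (E1 : ℝ) = (E1 : ℝ) ^ 1 := (pow_one _).symm
      _ ≤ _ := pow_le_pow_right₀ hE1R (by omega)
  have hE1sq : (E1 : ℝ) ^ 2 ≤ (E1 : ℝ) ^ (κ + 1) := pow_le_pow_right₀ hE1R (by omega)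
  have hy1 : 1 < y := by
    have : (1 : ℝ) ≤ (E1 : ℝ) ^ (κ + 1) * (15 * L) := by
      have h1 : (1 : ℝ) ≤ (E1 : ℝ) ^ (κ + 1) := one_le_pow₀ hE1R
      nlinarith
    linarith
  have hypos : 0 < y := by linarith
  -- d
  have hbase : (κ + 1) * q ^ (1 + κ + 2) < N := by
    have h1 : (κ + 1) * q ^ (1 + κ + 2) ≤ E1 ^ 2 := by
      rw [hE1, mul_pow, ← pow_mul]
      apply Nat.mul_le_mul
      · nlinarith
      · exact Nat.pow_le_pow_right hqpos (by omega)
    have h2 : (((κ + 1) * q ^ (1 + κ + 2) : ℕ) : ℝ) < N := by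
      calc (((κ + 1) * q ^ (1 + κ + 2) : ℕ) : ℝ) ≤ ((E1 ^ 2 : ℕ) : ℝ) := by exact_mod_cast h1
        _ = (E1 : ℝ) ^ 2 := by push_cast; ring
        _ ≤ (E1 : ℝ) ^ (κ + 1) * (15 * L) := by nlinarith
        _ < y := hPy
        _ ≤ y * y := by nlinarith
        _ = N := hyy
    exact_mod_cast h2
  obtain ⟨d, hd1, hdN, hdN'⟩ : ∃ d, 1 ≤ d ∧ (κ + 1) * q ^ (d + κ + 2) < N ∧
      N ≤ (κ + 1) * q ^ (d + 1 + κ + 2) := by
    have hex : ∃ d, N ≤ (κ + 1) * q ^ (d + 1 + κ + 2) := by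
      refine ⟨N, ?_⟩
      have h1 : N < q ^ N := Nat.lt_pow_self (by omega)
      have h2 : q ^ N ≤ q ^ (N + 1 + κ + 2) := Nat.pow_le_pow_right hqpos (by omega)
      have h3 : q ^ (N + 1 + κ + 2) ≤ (κ + 1) * q ^ (N + 1 + κ + 2) :=
        Nat.le_mul_of_pos_left _ (by omega)
      omega
    classical
    refine ⟨Nat.find hex, ?_, ?_, Nat.find_spec hex⟩
    · by_contra hcon
      have h0 : Nat.find hex = 0 := by omega
      have h1 := Nat.find_spec hex
      rw [h0] at h1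
      have h2 : 0 + 1 + κ + 2 = 1 + κ + 2 := by omega
      rw [h2] at h1
      omega
    · by_contra hcon
      push Not at hcon
      rcases Nat.eq_zero_or_pos (Nat.find hex) with h0 | h0
      · rw [h0] at hcon
        have h2 : q ^ (0 + κ + 2) ≤ q ^ (1 + κ + 2) := Nat.pow_le_pow_right hqpos (by omega)
        have h3 := Nat.mul_le_mul_left (κ + 1) h2
        omega
      · have h1 : Nat.find hex - 1 < Nat.find hex := by omega
        apply Nat.find_min hex h1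
        have h2 : Nat.find hex - 1 + 1 + κ + 2 = Nat.find hex + κ + 2 := by omega
        rw [h2]
        exact hcon
  -- n
  set n := q ^ (d + 1) with hn
  have hnpos : 0 < n := by rw [hn]; positivity
  have hnR : (0 : ℝ) < n := by exact_mod_cast hnpos
  have hnN : n ≤ N := by
    have h1 : q ^ (d + 1) ≤ q ^ (d + κ + 2) := Nat.pow_le_pow_right hqpos (by omega)
    have h2 : q ^ (d + κ + 2) ≤ (κ + 1) * q ^ (d + κ + 2) := Nat.le_mul_of_pos_left _ (by omega)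
    omega
  have hNE : N ≤ E1 * n := by
    calc N ≤ (κ + 1) * q ^ (d + 1 + κ + 2) := hdN'
      _ = E1 * n := by
          rw [hE1, hn]
          have : d + 1 + κ + 2 = (κ + 2) + (d + 1) := by ring
          rw [this, pow_add, mul_assoc]
  have hNER : (N : ℝ) ≤ E1 * n := by exact_mod_cast hNE
  set M := n ^ κ with hM
  have hMR : (M : ℝ) = (n : ℝ) ^ κ := by rw [hM]; push_cast; rfl
  have hMn : (n : ℝ) ≤ M := by
    rw [hMR]
    calc (n : ℝ) = (n : ℝ) ^ 1 := (pow_one _).symm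
      _ ≤ _ := pow_le_pow_right₀ (by exact_mod_cast hnpos) hκ
  have hMpos : (0 : ℝ) < M := lt_of_lt_of_le hnR hMn
  have hMx : (M : ℝ) ≤ Real.exp (κ * x) := by
    rw [hMR]
    calc (n : ℝ) ^ κ ≤ (N : ℝ) ^ κ := by
          apply pow_le_pow_left₀ hnR.le; exact_mod_cast hnN
      _ = Real.exp (κ * x) := by rw [← hexpx, ← Real.exp_nat_mul]
  have he : (0 : ℝ) < Real.exp 1 := Real.exp_pos 1
  have he3 : Real.exp 1 < 2.7182818286 := Real.exp_one_lt_d9
  have he2 : 2.7182818283 < Real.exp 1 := Real.exp_one_gt_d9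
  have hLRpos : (0 : ℝ) < L := by linarith
  -- M is much larger than L
  have hMbig : y ≤ (M : ℝ) / (2 * Real.exp 1 * L) := by
    rw [le_div_iff₀ (by positivity)]
    have h1 : y * (2 * Real.exp 1 * L) * E1 ≤ y * y := by
      rw [mul_assoc]
      apply mul_le_mul_of_nonneg_left _ hypos.le
      have h2 : 2 * Real.exp 1 * L * E1 ≤ E1 * (15 * L) := by nlinarith [mul_pos hLRpos (lt_of_lt_of_le one_pos hE1R)]
      have h3 : (E1 : ℝ) * (15 * L) ≤ (E1 : ℝ) ^ (κ + 1) * (15 * L) := by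
        apply mul_le_mul_of_nonneg_right hE1pow; positivity
      linarith
    rw [hyy] at h1
    have h4 : y * (2 * Real.exp 1 * L) * E1 ≤ n * E1 := by
      calc _ ≤ (N : ℝ) := h1
        _ ≤ E1 * n := hNER
        _ = n * E1 := mul_comm _ _
    have h5 := le_of_mul_le_mul_right h4 (lt_of_lt_of_le one_pos hE1R)
    exact h5.trans hMn
  set Z := (M : ℝ) / (2 * Real.exp 1 * L) with hZ
  have hZpos : 0 < Z := lt_of_lt_of_le hypos hMbig
  have hZ1 : 1 ≤ Z := le_trans hy1.le hMbig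
  -- R
  have htne : (t : ℝ) ≠ 0 := by linarith
  have htpos : (0 : ℝ) < t := by linarith
  set R := Z ^ (1 / (t : ℝ)) with hR
  have hRpos : 0 < R := Real.rpow_pos_of_pos hZpos _
  have hRt : R ^ t = Z := by
    rw [hR, ← Real.rpow_natCast, ← Real.rpow_mul hZpos.le, one_div_mul_cancel htne, Real.rpow_one]
  have hRe : Real.exp 1 ≤ R := by
    have h1 : Real.exp (t : ℝ) ≤ Z := by
      calc Real.exp (t : ℝ) ≤ Real.exp (x / 2) := Real.exp_le_exp.mpr htx
        _ ≤ Z := hMbig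
    have h2 : Real.exp 1 = (Real.exp (t : ℝ)) ^ (1 / (t : ℝ)) := by
      rw [← Real.exp_mul, mul_one_div_cancel htne]
    rw [h2, hR]
    exact Real.rpow_le_rpow (Real.exp_pos _).le h1 (by positivity)
  have hlogR : t * Real.log R ≤ κ * Λ := by
    have h1 : t * Real.log R = Real.log Z := by
      rw [hR, Real.log_rpow hZpos]; field_simp
    rw [h1]
    have h2 : Z ≤ M := by
      rw [hZ]
      apply div_le_self hMpos.le
      nlinarith
    calc Real.log Z ≤ Real.log M := Real.log_le_log hZpos h2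
      _ ≤ κ * x := by
          rw [Real.log_le_iff_le_exp hMpos]; exact hMx
      _ ≤ κ * Λ := by gcongr
  -- s
  have hqκ : 3 ≤ q ^ κ := by
    calc 3 ≤ q := hq3
      _ = q ^ 1 := (pow_one q).symm
      _ ≤ q ^ κ := Nat.pow_le_pow_right hqpos hκ
  have hdΛ : d ≤ Λ := by
    have h1 : (q : ℝ) ^ d ≤ N := by
      have : q ^ d ≤ N := by
        have h1 : q ^ d ≤ q ^ (d + κ + 2) := Nat.pow_le_pow_right hqpos (by omega)
        have h2 : q ^ (d + κ + 2) ≤ (κ + 1) * q ^ (d + κ + 2) :=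
          Nat.le_mul_of_pos_left _ (by omega)
        omega
      exact_mod_cast this
    have h2 : Real.exp d ≤ Real.exp x := by
      rw [hexpx]
      calc Real.exp d = (Real.exp 1) ^ d := by rw [← Real.exp_nat_mul, mul_one]
        _ ≤ (q : ℝ) ^ d := by
            apply pow_le_pow_left₀ he.le
            have : (3 : ℝ) ≤ q := by exact_mod_cast hq3
            linarith
        _ ≤ N := h1
    have h3 : (d : ℝ) ≤ Λ := (Real.exp_le_exp.mp h2).trans hxΛ
    exact_mod_cast h3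
  refine ⟨q, d, q ^ κ / 2, L, κ * Λ, R, hqprime, by omega, by omega, by omega, ?_, hdN, hLpos,
    ?_, ?_, by positivity, hRe, ?_, ?_, ?_⟩
  · calc 3 ≤ q := hq3
      _ = q ^ 1 := (pow_one q).symm
      _ ≤ q ^ d := Nat.pow_le_pow_right hqpos hd1
  · calc 2 * L * d ≤ 2 * L * Λ := Nat.mul_le_mul_left _ hdΛ
      _ ≤ q := hq1.le
  · have h1 : (L : ℝ) < M := by
      have h2 : (1 : ℝ) < (M : ℝ) / (2 * Real.exp 1 * L) := lt_of_lt_of_le hy1 hMbig
      rw [one_lt_div (by positivity)] at h2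
      nlinarith
    exact_mod_cast h1
  · -- hpar
    rw [hRt]
    obtain ⟨l', hl'⟩ : ∃ l', κ * Λ = l' + 1 := ⟨κ * Λ - 1, by
      have : 0 < κ * Λ := by positivity
      omega⟩
    have h1 : 2 * Z = ((M : ℝ) / L) / Real.exp 1 := by
      rw [hZ]; field_simp
    rw [h1, div_pow, div_le_iff₀ (by positivity), hl', Nat.add_sub_cancel, pow_succ]
    apply mul_le_mul_of_nonneg_left _ (by positivity)
    calc (M : ℝ) / L ≤ M := div_le_self hMpos.le hLR
      _ ≤ Real.exp (κ * x) := hMx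
      _ ≤ Real.exp ((l' + 1 : ℕ) * 1) := by
          apply Real.exp_le_exp.mpr
          rw [← hl']
          push_cast
          rw [mul_one]
          gcongr
      _ = Real.exp 1 ^ (l' + 1) := by rw [Real.exp_nat_mul]
  · -- hbig
    have h1 : (R * 2 ^ w) ^ (t * (κ * Λ)) =
        Real.exp ((t * (κ * Λ) : ℕ) * (Real.log R + w * Real.log 2)) := by
      rw [Real.exp_nat_mul, Real.exp_add, Real.exp_log hRpos, Real.exp_nat_mul,
        Real.exp_log (by norm_num)]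
    rw [h1]
    apply Real.exp_lt_exp.mpr
    have h2 : ((t * (κ * Λ) : ℕ) : ℝ) * (Real.log R + w * Real.log 2) =
        (κ * Λ) * (t * Real.log R) + (κ * Λ) * (t * (w * Real.log 2)) := by
      push_cast; ring
    rw [h2]
    have hlog2 : Real.log 2 ≤ 1 := by
      have := Real.log_two_lt_d9
      linarith
    have hlog2' : 0 ≤ Real.log 2 := Real.log_nonneg (by norm_num)
    have hwΛ : (w : ℝ) ≤ (Λ : ℝ) ^ a := by
      refine hwx.trans ?_
      apply pow_le_pow_left₀ (by linarith) hxΛ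
    have h3 : (t : ℝ) * (w * Real.log 2) ≤ Λ * Λ ^ a := by
      have h4 : (w : ℝ) * Real.log 2 ≤ Λ ^ a * 1 :=
        mul_le_mul hwΛ hlog2 hlog2' (by positivity)
      have h5 : (t : ℝ) ≤ Λ := by linarith
      rw [mul_one] at h4
      exact mul_le_mul h5 h4 (by positivity) (by positivity)
    have h6 : (1 : ℝ) ≤ (Λ : ℝ) ^ a := one_le_pow₀ hΛ1R
    have hΛa : (Λ : ℝ) ≤ Λ * Λ ^ a := by nlinarith
    calc (κ * Λ : ℝ) * (t * Real.log R) + (κ * Λ) * (t * (w * Real.log 2))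
        ≤ (κ * Λ) * (κ * (Λ * Λ ^ a)) + (κ * Λ) * (Λ * Λ ^ a) := by
          have h7 : (κ * Λ : ℝ) * (t * Real.log R) ≤ (κ * Λ) * (κ * (Λ * Λ ^ a)) := by
            apply mul_le_mul_of_nonneg_left _ (by positivity)
            refine hlogR.trans ?_
            apply mul_le_mul_of_nonneg_left hΛa (by positivity)
          have h8 : (κ * Λ : ℝ) * (t * (w * Real.log 2)) ≤ (κ * Λ) * (Λ * Λ ^ a) := by
            apply mul_le_mul_of_nonneg_left h3 (by positivity)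
          linarith
      _ = (κ ^ 2 + κ) * Λ ^ (a + 2) := by ring
      _ ≤ (2 * κ ^ 2) * Λ ^ (a + 2) := by
          apply mul_le_mul_of_nonneg_right _ (by positivity)
          nlinarith
      _ < (13 * κ ^ 2 * Λ ^ (a + 2)) / 6 := by
          have : (0 : ℝ) < κ ^ 2 * Λ ^ (a + 2) := by positivity
          nlinarith
      _ = (L : ℝ) / 6 := by rw [hL]; push_cast; ring
  · -- the final bound
    have hxpos : 0 < x := by linarith
    have h1 : (N : ℝ) ^ (1 + (κ : ℝ) / t) ≤ (E1 : ℝ) ^ (κ + 1) * (n : ℝ) ^ (1 + (κ : ℝ) / t) := by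
      have hexpo : (0 : ℝ) ≤ 1 + (κ : ℝ) / t := by positivity
      calc (N : ℝ) ^ (1 + (κ : ℝ) / t) ≤ ((E1 : ℝ) * n) ^ (1 + (κ : ℝ) / t) :=
            Real.rpow_le_rpow hNpos.le hNER hexpo
        _ = (E1 : ℝ) ^ (1 + (κ : ℝ) / t) * (n : ℝ) ^ (1 + (κ : ℝ) / t) :=
            Real.mul_rpow (by positivity) hnR.le
        _ ≤ (E1 : ℝ) ^ (κ + 1) * (n : ℝ) ^ (1 + (κ : ℝ) / t) := by
            apply mul_le_mul_of_nonneg_right _ (by positivity)
            rw [← Real.rpow_natCast]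
            apply Real.rpow_le_rpow_of_exponent_le hE1R
            push_cast
            have : (κ : ℝ) / t ≤ κ := div_le_self (by positivity) htR
            linarith
    have h2 : (n : ℝ) ^ (1 + (κ : ℝ) / t) = n * (M : ℝ) ^ (1 / (t : ℝ)) := by
      rw [Real.rpow_add hnR, Real.rpow_one, hMR, ← Real.rpow_natCast, ← Real.rpow_mul hnR.le]
      congr 2
      ring
    have h3 : (M : ℝ) ^ (1 / (t : ℝ)) ≤ (2 * Real.exp 1 * L) * R := by
      have h4 : (M : ℝ) = (2 * Real.exp 1 * L) * Z := by rw [hZ]; field_simp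
      have h5 : (1 : ℝ) ≤ 2 * Real.exp 1 * L := by nlinarith
      rw [h4, Real.mul_rpow (by positivity) hZpos.le, ← hR]
      apply mul_le_mul_of_nonneg_right _ hRpos.le
      calc (2 * Real.exp 1 * L) ^ (1 / (t : ℝ)) ≤ (2 * Real.exp 1 * L) ^ (1 : ℝ) := by
            apply Real.rpow_le_rpow_of_exponent_le h5
            rw [div_le_one htpos]; exact htR
        _ = _ := Real.rpow_one _
    rw [div_le_iff₀ (by positivity)]
    calc (N : ℝ) ^ (1 + (κ : ℝ) / t) ≤ (E1 : ℝ) ^ (κ + 1) * (n : ℝ) ^ (1 + (κ : ℝ) / t) := h1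
      _ = (E1 : ℝ) ^ (κ + 1) * (n * (M : ℝ) ^ (1 / (t : ℝ))) := by rw [h2]
      _ ≤ (E1 : ℝ) ^ (κ + 1) * (n * ((2 * Real.exp 1 * L) * R)) := by gcongr
      _ = ((E1 : ℝ) ^ (κ + 1) * ((2 * Real.exp 1 * Real.exp 1) * L)) * (n * R / Real.exp 1) := by
          field_simp
      _ ≤ ((E1 : ℝ) ^ (κ + 1) * (15 * L)) * (n * R / Real.exp 1) := by
          apply mul_le_mul_of_nonneg_right _ (by positivity)
          apply mul_le_mul_of_nonneg_left _ (by positivity)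
          apply mul_le_mul_of_nonneg_right _ (by positivity)
          nlinarith
      _ ≤ x ^ (b + 1) * (n * R / Real.exp 1) := by
          apply mul_le_mul_of_nonneg_right hPolyR (by positivity)
      _ ≤ x ^ (b + 1) * ((t * n : ℕ) * R / Real.exp 1) := by
          apply mul_le_mul_of_nonneg_left _ (by positivity)
          apply div_le_div_of_nonneg_right _ he.le
          apply mul_le_mul_of_nonneg_right _ hRpos.le
          push_cast
          nlinarith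
      _ = _ := by ring

end H447CP
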