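import Pool.Agent.H447R2.CP.Model

/-!
# The counting core of the cell-probe lower bound
-/

namespace H447CP

open Finset
open scoped Classical BigOperators

/-- Number of subsets of size at most `a` of a set with `S ≤ a R / e` elements. -/
lemma card_small_subsets (S a : ℕ) (R : ℝ) (hR : Real.exp 1 ≤ R)
    (hS : (S : ℝ) ≤ a * R / Real.exp 1) :
    (((univ : Finset (Finset (Fin S))).filter fun Γ => Γ.card ≤ a).card : ℝ) ≤ R ^ a := by
  have he : (0 : ℝ) < Real.exp 1 := Real.exp_pos 1
  have hRpos : (0 : ℝ) < R := lt_of_lt_of_le he hR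
  set z : ℝ := Real.exp 1 / R with hz
  have hz0 : 0 < z := div_pos he hRpos
  have hz1 : z ≤ 1 := by rw [hz, div_le_one hRpos]; exact hR
  have h1 : ((((univ : Finset (Finset (Fin S))).filter fun Γ => Γ.card ≤ a).card : ℕ) : ℝ) * z ^ a
      ≤ (1 + z) ^ S := by
    calc ((((univ : Finset (Finset (Fin S))).filter fun Γ => Γ.card ≤ a).card : ℕ) : ℝ) * z ^ a
        = ∑ Γ ∈ (univ : Finset (Finset (Fin S))).filter (fun Γ => Γ.card ≤ a), z ^ a := by
          rw [sum_const, nsmul_eq_mul]
      _ ≤ ∑ Γ ∈ (univ : Finset (Finset (Fin S))).filter (fun Γ => Γ.card ≤ a), z ^ Γ.card := by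
          apply sum_le_sum
          intro Γ hΓ
          exact pow_le_pow_of_le_one hz0.le hz1 (mem_filter.mp hΓ).2
      _ ≤ ∑ Γ : Finset (Fin S), z ^ Γ.card := by
          apply sum_le_sum_of_subset_of_nonneg (filter_subset _ _)
          intro Γ _ _
          positivity
      _ = (1 + z) ^ S := by
          have := Fintype.sum_pow_mul_eq_add_pow (Fin S) z (1 : ℝ)
          simp only [one_pow, mul_one, Fintype.card_fin] at this
          rw [this, add_comm]
  have h2 : (1 + z) ^ S ≤ Real.exp a := by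
    calc (1 + z) ^ S ≤ (Real.exp z) ^ S := by
          apply pow_le_pow_left₀ (by positivity)
          rw [add_comm]
          exact Real.add_one_le_exp z
      _ = Real.exp (S * z) := by rw [← Real.exp_nat_mul]
      _ ≤ Real.exp a := by
          apply Real.exp_le_exp.mpr
          calc (S : ℝ) * z ≤ (a * R / Real.exp 1) * z := by gcongr
            _ = a := by rw [hz]; field_simp
  have h3 : Real.exp a = R ^ a * z ^ a := by
    rw [← mul_pow, hz, mul_div_cancel₀ _ hRpos.ne', ← Real.exp_nat_mul, mul_one]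
  have hza : (0 : ℝ) < z ^ a := by positivity
  have h4 := h1.trans (h2.trans (le_of_eq h3))
  exact le_of_mul_le_mul_right h4 hza

section core

variable {ι J X : Type} [Fintype ι] [Fintype J] [Fintype X]
  {S w : ℕ}

/-- The columns whose query with row `i` is answered positively inside `Γ` on memory `c`. -/
noncomputable def G (alg : ι → J → PTree S (Fin (2 ^ w)) Bool) (Γ : Finset (Fin S))
    (c : Fin S → Fin (2 ^ w)) (i : ι) : Finset J :=
  univ.filter fun j => (alg i j).run c = true ∧ (alg i j).cells c ⊆ Γ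

omit [Fintype ι] in
lemma G_restr (alg : ι → J → PTree S (Fin (2 ^ w)) Bool) (Γ : Finset (Fin S))
    (w0 : Fin (2 ^ w)) (c : Fin S → Fin (2 ^ w)) (i : ι) :
    G alg Γ (restr w0 Γ c) i = G alg Γ c i := by
  ext j
  simp only [G, mem_filter, mem_univ, true_and]
  exact PTree.restr_iff w0 Γ c (alg i j)

omit [Fintype X] in
/-- Step 1: some small set of cells answers many queries. -/
lemma step1 (t : ℕ) (disj : X → J → Prop) (alg : ι → J → PTree S (Fin (2 ^ w)) Bool)
    (x : ι → X) (c : Fin S → Fin (2 ^ w))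
    (h1 : ∀ i j, disj (x i) j → (alg i j).run c = true ∧ (alg i j).cost c ≤ t) :
    ∃ Γ : Finset (Fin S), Γ.card ≤ t * Fintype.card ι ∧
      ∏ i, (univ.filter fun j => disj (x i) j).card ≤
        ((univ : Finset (Finset (Fin S))).filter fun Γ => Γ.card ≤ t * Fintype.card ι).card *
          ∏ i, (G alg Γ c i).card := by
  set P := (univ : Finset (Finset (Fin S))).filter fun Γ => Γ.card ≤ t * Fintype.card ι with hP
  set D : ι → Finset J := fun i => univ.filter fun j => disj (x i) j with hD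
  set F := Fintype.piFinset D with hF
  set φ : (ι → J) → Finset (Fin S) := fun f => univ.biUnion fun i => (alg i (f i)).cells c with hφ
  have hmaps : ∀ f ∈ F, φ f ∈ P := by
    intro f hf
    rw [hF, Fintype.mem_piFinset] at hf
    rw [hP, mem_filter]
    refine ⟨mem_univ _, ?_⟩
    calc (φ f).card ≤ ∑ i : ι, ((alg i (f i)).cells c).card := card_biUnion_le
      _ ≤ ∑ _i : ι, t := by
          apply sum_le_sum
          intro i _
          have hd : disj (x i) (f i) := (mem_filter.mp (hf i)).2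
          exact (PTree.card_cells_le _ _).trans (h1 i (f i) hd).2
      _ = t * Fintype.card ι := by rw [sum_const, smul_eq_mul, mul_comm]; rfl
  have hcard := card_eq_sum_card_fiberwise (s := F) (t := P) (f := φ) (fun f hf => hmaps f hf)
  have hfib : ∀ Γ ∈ P, (F.filter fun f => φ f = Γ).card ≤ ∏ i, (G alg Γ c i).card := by
    intro Γ _
    rw [← Fintype.card_piFinset]
    apply card_le_card
    intro f hf
    rw [mem_filter] at hf
    obtain ⟨hf1, hf2⟩ := hf
    rw [hF, Fintype.mem_piFinset] at hf1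
    rw [Fintype.mem_piFinset]
    intro i
    simp only [G, mem_filter, mem_univ, true_and]
    have hd : disj (x i) (f i) := (mem_filter.mp (hf1 i)).2
    refine ⟨(h1 i (f i) hd).1, ?_⟩
    rw [← hf2]
    exact subset_biUnion_of_mem (fun i => (alg i (f i)).cells c) (mem_univ i)
  have hle : F.card ≤ ∑ Γ ∈ P, ∏ i, (G alg Γ c i).card := by
    rw [hcard]
    exact sum_le_sum hfib
  have hFcard : F.card = ∏ i, (D i).card := by rw [hF, Fintype.card_piFinset]
  have hPne : P.Nonempty := ⟨∅, by rw [hP, mem_filter]; simp⟩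
  by_contra hcon
  push Not at hcon
  have h2 : ∀ Γ ∈ P, P.card * ∏ i, (G alg Γ c i).card < F.card := by
    intro Γ hΓ
    rw [hFcard]
    exact hcon Γ (mem_filter.mp hΓ).2
  have h3 : ∑ Γ ∈ P, P.card * ∏ i, (G alg Γ c i).card < ∑ _Γ ∈ P, F.card :=
    sum_lt_sum_of_nonempty hPne h2
  rw [← mul_sum, sum_const, smul_eq_mul] at h3
  have h4 : P.card * F.card ≤ P.card * ∑ Γ ∈ P, ∏ i, (G alg Γ c i).card :=
    Nat.mul_le_mul_left _ hle
  omega

/-- Step 2: many rows keep at least `L` columns. -/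
lemma step2 (t L l : ℕ) (D G' : ι → ℕ) (B R : ℝ) (M : ℕ) (hn : 0 < Fintype.card ι)
    (hL : 0 < L) (hLM : L < M)
    (hB : B ≤ R ^ (t * Fintype.card ι)) (hR : 0 < R)
    (hD : ∀ i, M ≤ 2 * D i) (hG : ∀ i, G' i ≤ M)
    (hprod : ((∏ i, D i : ℕ) : ℝ) ≤ B * ((∏ i, G' i : ℕ) : ℝ))
    (hl : 0 < l)
    (hpar : (2 * R ^ t) ^ l ≤ ((M : ℝ) / L) ^ (l - 1)) :
    Fintype.card ι ≤ l * (univ.filter fun i => L ≤ G' i).card := by
  set n := Fintype.card ι with hndef
  set good := univ.filter fun i => L ≤ G' i with hgood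
  set bad := univ.filter fun i => ¬ L ≤ G' i with hbad
  have hsplit : good.card + bad.card = n := by
    rw [hgood, hbad, card_filter_add_card_filter_not]; rfl
  set b := bad.card with hb
  have hMpos : (0 : ℝ) < M := by exact_mod_cast (lt_trans hL hLM)
  have hLpos : (0 : ℝ) < L := by exact_mod_cast hL
  have hQ : (1 : ℝ) < (M : ℝ) / L := by
    rw [one_lt_div hLpos]; exact_mod_cast hLM
  -- product of G'
  have hGle : ((∏ i, G' i : ℕ) : ℝ) ≤ (L : ℝ) ^ b * (M : ℝ) ^ (n - b) := by
    have h1 : (∏ i, G' i) = (∏ i ∈ good, G' i) * ∏ i ∈ bad, G' i := by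
      rw [hgood, hbad, prod_filter_mul_prod_filter_not]
    have h2 : (∏ i ∈ good, G' i) ≤ M ^ good.card := prod_le_pow_card _ _ _ (fun i _ => hG i)
    have h3 : (∏ i ∈ bad, G' i) ≤ L ^ bad.card := by
      apply prod_le_pow_card
      intro i hi
      have := (mem_filter.mp hi).2
      omega
    have h4 : (∏ i, G' i) ≤ L ^ b * M ^ (n - b) := by
      rw [h1]
      have h5 : n - b = good.card := by omega
      rw [h5]
      calc _ ≤ M ^ good.card * L ^ bad.card := Nat.mul_le_mul h2 h3
        _ = _ := by rw [mul_comm]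
    exact_mod_cast h4
  have hDge : ((M : ℝ) / 2) ^ n ≤ ((∏ i, D i : ℕ) : ℝ) := by
    rw [Nat.cast_prod]
    calc ((M : ℝ) / 2) ^ n = ∏ _i : ι, ((M : ℝ) / 2) := by rw [prod_const]; rfl
      _ ≤ ∏ i : ι, (D i : ℝ) := by
          apply prod_le_prod
          · intro i _; positivity
          · intro i _
            have : (M : ℝ) ≤ 2 * D i := by exact_mod_cast hD i
            linarith
  have hbn : b ≤ n := by omega
  have hkey : ((M : ℝ) / L) ^ b ≤ (2 * R ^ t) ^ n := by
    have h1 : ((M : ℝ) / 2) ^ n ≤ R ^ (t * n) * ((L : ℝ) ^ b * (M : ℝ) ^ (n - b)) := by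
      calc ((M : ℝ) / 2) ^ n ≤ ((∏ i, D i : ℕ) : ℝ) := hDge
        _ ≤ B * ((∏ i, G' i : ℕ) : ℝ) := hprod
        _ ≤ R ^ (t * n) * ((∏ i, G' i : ℕ) : ℝ) := by
            apply mul_le_mul_of_nonneg_right hB; positivity
        _ ≤ _ := by
            apply mul_le_mul_of_nonneg_left hGle; positivity
    have h2 : (M : ℝ) ^ n = (M : ℝ) ^ b * (M : ℝ) ^ (n - b) := by
      rw [← pow_add]; congr 1; omega
    rw [div_pow, h2, div_le_iff₀ (by positivity)] at h1
    rw [div_pow, div_le_iff₀ (by positivity), mul_pow, ← pow_mul]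
    have h3 : (0 : ℝ) < (M : ℝ) ^ (n - b) := by positivity
    have h4 : (M : ℝ) ^ b * (M : ℝ) ^ (n - b) ≤
        (2 ^ n * R ^ (t * n) * (L : ℝ) ^ b) * (M : ℝ) ^ (n - b) := by
      calc _ ≤ _ := h1
        _ = _ := by ring
    exact le_of_mul_le_mul_right h4 h3
  have hkey2 : ((M : ℝ) / L) ^ (b * l) ≤ ((M : ℝ) / L) ^ ((l - 1) * n) := by
    calc ((M : ℝ) / L) ^ (b * l) = (((M : ℝ) / L) ^ b) ^ l := by rw [pow_mul]
      _ ≤ ((2 * R ^ t) ^ n) ^ l := by
          apply pow_le_pow_left₀ (by positivity) hkey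
      _ = ((2 * R ^ t) ^ l) ^ n := by rw [← pow_mul, ← pow_mul, mul_comm n l]
      _ ≤ (((M : ℝ) / L) ^ (l - 1)) ^ n := by
          apply pow_le_pow_left₀ (by positivity) hpar
      _ = _ := by rw [← pow_mul]
  have hkey3 : b * l ≤ (l - 1) * n := (pow_le_pow_iff_right₀ hQ).mp hkey2
  -- conclude
  obtain ⟨l', rfl⟩ : ∃ l', l = l' + 1 := ⟨l - 1, by omega⟩
  rw [Nat.add_sub_cancel] at hkey3
  have h6 : good.card = n - b := by omega
  rw [h6]
  have h7 : (l' + 1) * (n - b) = (l' + 1) * n - (l' + 1) * b := Nat.mul_sub _ _ _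
  rw [h7]
  have h8 : (l' + 1) * b ≤ l' * n := by rw [mul_comm]; exact hkey3
  have h9 : (l' + 1) * n = l' * n + n := by ring
  omega

/-- The counting core. -/
theorem core (t L l : ℕ) (disj : X → J → Prop)
    (mem : (ι → X) → Fin S → Fin (2 ^ w)) (alg : ι → J → PTree S (Fin (2 ^ w)) Bool)
    (M : ℕ) (hM : Fintype.card J = M) (R Y : ℝ)
    (h1 : ∀ x i j, disj (x i) j → (alg i j).run (mem x) = true ∧ (alg i j).cost (mem x) ≤ t)
    (h1' : ∀ x i j, (alg i j).run (mem x) = true → disj (x i) j)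
    (hD : ∀ x : X, M ≤ 2 * (univ.filter fun j => disj x j).card)
    (hA : ∀ A : Finset J, L ≤ A.card →
      Y * ((univ.filter fun x : X => ∀ j ∈ A, disj x j).card : ℝ) ≤ Fintype.card X)
    (hX : 0 < Fintype.card X)
    (hn : 0 < Fintype.card ι) (hL : 0 < L) (hLM : L < M) (hl : 0 < l)
    (hR : Real.exp 1 ≤ R) (hS : (S : ℝ) ≤ (t * Fintype.card ι : ℕ) * R / Real.exp 1)
    (hY : 1 ≤ Y)
    (hpar : (2 * R ^ t) ^ l ≤ ((M : ℝ) / L) ^ (l - 1)) :
    Y ≤ (R * 2 ^ w) ^ (t * l) := by
  set n := Fintype.card ι with hndef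
  have he : (0 : ℝ) < Real.exp 1 := Real.exp_pos 1
  have hRpos : (0 : ℝ) < R := lt_of_lt_of_le he hR
  set P := (univ : Finset (Finset (Fin S))).filter fun Γ => Γ.card ≤ t * n with hP
  have hPcard : (P.card : ℝ) ≤ R ^ (t * n) := card_small_subsets S (t * n) R hR hS
  have hw0 : 0 < 2 ^ w := by positivity
  set w0 : Fin (2 ^ w) := ⟨0, hw0⟩ with hw0def
  -- choose the set of cells
  have hchoice : ∀ x : ι → X, ∃ Γ ∈ P,
      n ≤ l * (univ.filter fun i => L ≤ (G alg Γ (restr w0 Γ (mem x)) i).card).card := by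
    intro x
    obtain ⟨Γ, hΓ1, hΓ2⟩ := step1 t disj alg x (mem x) (fun i j hd => h1 x i j hd)
    refine ⟨Γ, by rw [hP, mem_filter]; exact ⟨mem_univ _, hΓ1⟩, ?_⟩
    have := step2 (ι := ι) t L l (fun i => (univ.filter fun j => disj (x i) j).card)
      (fun i => (G alg Γ (mem x) i).card) (P.card : ℝ) R M hn hL hLM hPcard hRpos
      (fun i => hD (x i)) (fun i => by rw [← hM]; exact card_le_univ _)
      (by exact_mod_cast hΓ2) hl hpar
    simp only [G_restr]
    exact this
  -- cover all instances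
  set C : Finset (Fin S) → Finset (Fin S → Fin (2 ^ w)) := fun Γ =>
    Fintype.piFinset fun s => if s ∈ Γ then univ else {w0} with hC
  have hCcard : ∀ Γ ∈ P, ((C Γ).card : ℝ) ≤ (2 ^ w) ^ (t * n) := by
    intro Γ hΓ
    rw [hC]
    simp only [Fintype.card_piFinset]
    have h2 : ∏ s : Fin S, (if s ∈ Γ then (univ : Finset (Fin (2 ^ w))) else {w0}).card
        = (2 ^ w) ^ Γ.card := by
      have h3 : ∀ s : Fin S, (if s ∈ Γ then (univ : Finset (Fin (2 ^ w))) else {w0}).card
          = if s ∈ Γ then 2 ^ w else 1 := by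
        intro s
        split_ifs <;> simp
      simp only [h3]
      rw [prod_ite_mem, univ_inter, prod_const]
    rw [h2]
    push_cast
    apply pow_le_pow_right₀
    · exact one_le_pow₀ (by norm_num)
    · exact (mem_filter.mp hΓ).2
  set E : Finset (Fin S) → (Fin S → Fin (2 ^ w)) → Finset (ι → X) := fun Γ c =>
    univ.filter fun x => (∀ i, ∀ j ∈ G alg Γ c i, disj (x i) j) ∧
      n ≤ l * (univ.filter fun i => L ≤ (G alg Γ c i).card).card with hE
  have hcover : (univ : Finset (ι → X)) ⊆ P.biUnion fun Γ => (C Γ).biUnion fun c => E Γ c := by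
    intro x _
    obtain ⟨Γ, hΓP, hΓ⟩ := hchoice x
    rw [mem_biUnion]
    refine ⟨Γ, hΓP, ?_⟩
    rw [mem_biUnion]
    refine ⟨restr w0 Γ (mem x), ?_, ?_⟩
    · rw [hC]
      simp only [Fintype.mem_piFinset]
      intro s
      by_cases hs : s ∈ Γ
      · simp [hs]
      · simp [hs, restr_apply_not_mem]
    · rw [hE]
      simp only [mem_filter, mem_univ, true_and]
      refine ⟨?_, hΓ⟩
      intro i j hj
      rw [G_restr] at hj
      simp only [G, mem_filter, mem_univ, true_and] at hj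
      exact h1' x i j hj.1
  -- size of E
  have hXpos : (0 : ℝ) < Fintype.card X := by exact_mod_cast hX
  have hYpos : (0 : ℝ) < Y := lt_of_lt_of_le one_pos hY
  obtain ⟨g0, hg1, hg2⟩ : ∃ g0 : ℕ, n ≤ l * g0 ∧ ∀ g, n ≤ l * g → g0 ≤ g := by
    have hex : ∃ g, n ≤ l * g := ⟨n, Nat.le_mul_of_pos_left n hl⟩
    exact ⟨Nat.find hex, Nat.find_spec hex, fun g hg => Nat.find_min' hex hg⟩
  have hEcard : ∀ Γ c, Y ^ g0 * ((E Γ c).card : ℝ) ≤ (Fintype.card X : ℝ) ^ n := by
    intro Γ c
    by_cases hg : n ≤ l * (univ.filter fun i => L ≤ (G alg Γ c i).card).card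
    · set good := univ.filter fun i => L ≤ (G alg Γ c i).card with hgood
      have hsub : E Γ c ⊆ Fintype.piFinset fun i =>
          univ.filter fun x : X => ∀ j ∈ G alg Γ c i, disj x j := by
        intro x hx
        rw [Fintype.mem_piFinset]
        intro i
        rw [hE] at hx
        simp only [mem_filter, mem_univ, true_and] at hx ⊢
        exact hx.1 i
      have hcard := card_le_card hsub
      rw [Fintype.card_piFinset] at hcard
      have hcard' : ((E Γ c).card : ℝ) ≤
          ∏ i, ((univ.filter fun x : X => ∀ j ∈ G alg Γ c i, disj x j).card : ℝ) := by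
        exact_mod_cast hcard
      have hYg : Y ^ g0 ≤ Y ^ good.card := pow_le_pow_right₀ hY (hg2 _ hg)
      have hYprod : Y ^ good.card = ∏ i : ι, (if i ∈ good then Y else 1) := by
        rw [prod_ite_mem, univ_inter, prod_const]
      calc Y ^ g0 * ((E Γ c).card : ℝ) ≤ Y ^ good.card *
            ∏ i, ((univ.filter fun x : X => ∀ j ∈ G alg Γ c i, disj x j).card : ℝ) := by
            apply mul_le_mul hYg hcard' (by positivity) (by positivity)
        _ = ∏ i : ι, ((if i ∈ good then Y else 1) *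
            ((univ.filter fun x : X => ∀ j ∈ G alg Γ c i, disj x j).card : ℝ)) := by
            rw [hYprod, prod_mul_distrib]
        _ ≤ ∏ _i : ι, (Fintype.card X : ℝ) := by
            apply prod_le_prod
            · intro i _
              split_ifs <;> positivity
            · intro i _
              split_ifs with hi
              · exact hA _ (mem_filter.mp hi).2
              · rw [one_mul]
                exact_mod_cast card_le_univ _
        _ = (Fintype.card X : ℝ) ^ n := by rw [prod_const]; rfl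
    · have : E Γ c = ∅ := by
        rw [hE]
        apply filter_eq_empty_iff.mpr
        rintro x _ ⟨_, h⟩
        exact hg h
      rw [this]
      simp only [card_empty, Nat.cast_zero, mul_zero]
      positivity
  -- total count
  have htotal : Y ^ g0 * (Fintype.card X : ℝ) ^ n ≤
      (R ^ (t * n) * (2 ^ w) ^ (t * n)) * (Fintype.card X : ℝ) ^ n := by
    have h2 : ((univ : Finset (ι → X)).card : ℝ) ≤ ∑ Γ ∈ P, ∑ c ∈ C Γ, ((E Γ c).card : ℝ) := by
      have h3 : (univ : Finset (ι → X)).card ≤ ∑ Γ ∈ P, ∑ c ∈ C Γ, (E Γ c).card := by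
        calc (univ : Finset (ι → X)).card ≤ _ := card_le_card hcover
          _ ≤ ∑ Γ ∈ P, ((C Γ).biUnion fun c => E Γ c).card := card_biUnion_le
          _ ≤ _ := sum_le_sum fun Γ _ => card_biUnion_le
      exact_mod_cast h3
    have hcardfun : ((univ : Finset (ι → X)).card : ℝ) = (Fintype.card X : ℝ) ^ n := by
      rw [card_univ, Fintype.card_fun]; push_cast; rfl
    rw [hcardfun] at h2
    calc Y ^ g0 * (Fintype.card X : ℝ) ^ n
        ≤ Y ^ g0 * ∑ Γ ∈ P, ∑ c ∈ C Γ, ((E Γ c).card : ℝ) := by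
          apply mul_le_mul_of_nonneg_left h2; positivity
      _ = ∑ Γ ∈ P, ∑ c ∈ C Γ, Y ^ g0 * ((E Γ c).card : ℝ) := by
          rw [mul_sum]; exact sum_congr rfl fun Γ _ => by rw [mul_sum]
      _ ≤ ∑ Γ ∈ P, ∑ _c ∈ C Γ, (Fintype.card X : ℝ) ^ n :=
          sum_le_sum fun Γ _ => sum_le_sum fun c _ => hEcard Γ c
      _ = ∑ Γ ∈ P, ((C Γ).card : ℝ) * (Fintype.card X : ℝ) ^ n := by
          exact sum_congr rfl fun Γ _ => by rw [sum_const, nsmul_eq_mul]
      _ ≤ ∑ _Γ ∈ P, ((2 ^ w) ^ (t * n) : ℝ) * (Fintype.card X : ℝ) ^ n := by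
          apply sum_le_sum
          intro Γ hΓ
          apply mul_le_mul_of_nonneg_right (hCcard Γ hΓ); positivity
      _ = (P.card : ℝ) * (((2 ^ w) ^ (t * n) : ℝ) * (Fintype.card X : ℝ) ^ n) := by
          rw [sum_const, nsmul_eq_mul]
      _ ≤ R ^ (t * n) * (((2 ^ w) ^ (t * n) : ℝ) * (Fintype.card X : ℝ) ^ n) := by
          apply mul_le_mul_of_nonneg_right hPcard; positivity
      _ = _ := by ring
  have h5 : Y ^ g0 ≤ R ^ (t * n) * (2 ^ w) ^ (t * n) :=
    le_of_mul_le_mul_right htotal (by positivity)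
  have h6 : Y ^ n ≤ ((R * 2 ^ w) ^ (t * l)) ^ n := by
    calc Y ^ n ≤ Y ^ (l * g0) := pow_le_pow_right₀ hY hg1
      _ = (Y ^ g0) ^ l := by rw [mul_comm, pow_mul]
      _ ≤ (R ^ (t * n) * (2 ^ w) ^ (t * n)) ^ l := by
          apply pow_le_pow_left₀ (by positivity) h5
      _ = ((R * 2 ^ w) ^ (t * l)) ^ n := by
          rw [← mul_pow, ← pow_mul, ← pow_mul]
          congr 1
          ring
  exact (pow_le_pow_iff_left₀ (by positivity) (by positivity) hn.ne').mp h6

end core

end H447CP
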