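import Pool.Agent.H447R2.CP.Asym

/-!
# The cell-probe lower bound for `k`-set disjointness
-/

namespace H447CP

open Finset
open scoped BigOperators

/-- `k`-set disjointness, `t` probes on disjoint tuples: space at least
`N ^ (1 + (k - 1) / t) / polylog`. -/
theorem disjointness_bound (k a : ℕ) (hk : 2 ≤ k) : ∃ c N₀ : ℕ, ∀ N t w : ℕ, N₀ ≤ N → 1 ≤ t →
    (t : ℝ) ≤ Real.log N / 2 → (w : ℝ) ≤ (Real.log N) ^ a → ∃ m ≤ N, ∀ S : ℕ,
      ∀ store : (Fin m → Finset (Fin N)) → Fin S → Fin (2 ^ w),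
      ∀ query : (Fin k → Fin m) → PTree S (Fin (2 ^ w)) Bool,
      (∀ F : Fin m → Finset (Fin N), (∀ i, (F i).Nonempty) → ∑ i, (F i).card = N →
        ∀ v : Fin k → Fin m,
          ((query v).run (store F) = true ↔ ∀ y, ∃ a, y ∉ F (v a)) ∧
          ((∀ y, ∃ a, y ∉ F (v a)) → (query v).cost (store F) ≤ t)) →
      (N : ℝ) ^ (1 + ((k : ℝ) - 1) / t) / (Real.log N) ^ c ≤ S := by
  obtain ⟨κ, rfl⟩ : ∃ κ, k = κ + 1 := ⟨k - 1, by omega⟩
  obtain ⟨c, N₀, h⟩ := params κ a (by omega)
  refine ⟨c, N₀, ?_⟩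
  intro N t w hN ht htx hwx
  obtain ⟨q, d, s, L, l, R, hq, h1, h2, h3, h4, h5, h6, h7, h8, h9, h10, h11, h12, h13⟩ :=
    h N t w hN ht htx hwx
  have : Fact q.Prime := ⟨hq⟩
  obtain ⟨m, hm, hbound⟩ := family_bound q κ d s N t L l w h1 h2 h3 h4 h5 R h6 h7 h8 h9 h10 h11 h12
  refine ⟨m, hm, ?_⟩
  intro S store query hsolve
  have hfin := hbound S store query hsolve
  have hk' : (((κ + 1 : ℕ) : ℝ) - 1) = κ := by push_cast; ring
  rw [hk']
  exact h13.trans hfin.le

/-- Change the answers of a query algorithm. -/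
def PTree.map {S : ℕ} {W A B : Type} (f : A → B) : PTree S W A → PTree S W B
  | .ans a => .ans (f a)
  | .probe s next => .probe s fun r => (next r).map f

lemma PTree.run_map {S : ℕ} {W A B : Type} (f : A → B) (mem : Fin S → W) (T : PTree S W A) :
    (T.map f).run mem = f (T.run mem) := by
  induction T with
  | ans a => rfl
  | probe s next ih => simp only [PTree.map, PTree.run]; exact ih _

lemma PTree.cost_map {S : ℕ} {W A B : Type} (f : A → B) (mem : Fin S → W) (T : PTree S W A) :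
    (T.map f).cost mem = T.cost mem := by
  induction T with
  | ans a => rfl
  | probe s next ih => simp only [PTree.map, PTree.cost]; rw [ih]

end H447CP
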