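import Pool.Agent.H447R2.CP.Core

/-!
# The hard instances: graphs of polynomials over `ZMod q`
-/

namespace H447CP

open Finset
open scoped Classical BigOperators

section inst

variable (q κ d : ℕ) [Fact q.Prime]

/-- Coefficient vectors of polynomials of degree at most `d`. -/
abbrev Co : Type := Fin (d + 1) → ZMod q

/-- The universe. -/
abbrev Un : Type := ZMod q × (Fin κ → ZMod q)

variable {q d}

/-- Evaluation of the polynomial with coefficients `c`. -/
def ev (c : Co q d) (x : ZMod q) : ZMod q := ∑ e, c e * x ^ (e : ℕ)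

/-- Two different polynomials of degree at most `d` agree in at most `d` points. -/
lemma agree_le (c c' : Co q d) (h : c ≠ c') :
    (univ.filter fun x : ZMod q => ev c x = ev c' x).card ≤ d := by
  set P : Polynomial (ZMod q) :=
    ∑ e : Fin (d + 1), Polynomial.C (c e - c' e) * Polynomial.X ^ (e : ℕ) with hP
  have hdeg : P.natDegree ≤ d := by
    rw [hP]
    apply Polynomial.natDegree_sum_le_of_forall_le
    intro e _
    refine (Polynomial.natDegree_C_mul_X_pow_le _ _).trans ?_
    omega
  have hcoeff : ∀ e : Fin (d + 1), P.coeff e = c e - c' e := by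
    intro e
    rw [hP, Polynomial.finsetSum_coeff]
    simp only [Polynomial.coeff_C_mul_X_pow]
    rw [Finset.sum_eq_single e]
    · simp
    · intro b _ hb
      rw [if_neg]
      intro hcon
      exact hb (Fin.ext hcon.symm)
    · intro hcon
      exact absurd (mem_univ e) hcon
  have hne : P ≠ 0 := by
    intro h0
    apply h
    funext e
    have := hcoeff e
    rw [h0, Polynomial.coeff_zero] at this
    exact (sub_eq_zero.mp this.symm)
  have heval : ∀ x, P.eval x = ev c x - ev c' x := by
    intro x
    rw [hP, Polynomial.eval_finsetSum, ev, ev, ← Finset.sum_sub_distrib]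
    apply Finset.sum_congr rfl
    intro e _
    simp [sub_mul]
  calc (univ.filter fun x : ZMod q => ev c x = ev c' x).card ≤ P.roots.toFinset.card := by
        apply card_le_card
        intro x hx
        rw [mem_filter] at hx
        rw [Multiset.mem_toFinset, Polynomial.mem_roots hne, Polynomial.IsRoot.def, heval, hx.2,
          sub_self]
    _ ≤ Multiset.card P.roots := Multiset.toFinset_card_le _
    _ ≤ P.natDegree := Polynomial.card_roots' P
    _ ≤ d := hdeg

/-- At most `q ^ d` polynomials take the value `y` at `x`. -/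
lemma fiber_le (x y : ZMod q) : (univ.filter fun c : Co q d => ev c x = y).card ≤ q ^ d := by
  have hcard : (univ : Finset (Fin d → ZMod q)).card = q ^ d := by
    rw [card_univ, Fintype.card_fun, ZMod.card, Fintype.card_fin]
  rw [← hcard]
  apply card_le_card_of_injOn (fun c => Fin.tail c) (fun _ _ => mem_coe.mpr (mem_univ _))
  intro c hc c' hc' htail
  rw [mem_coe, mem_filter] at hc hc'
  have h0 : c 0 = c' 0 := by
    have h1 := hc.2.trans hc'.2.symm
    simp only [ev, Fin.sum_univ_succ, Fin.val_zero, pow_zero, mul_one] at h1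
    have h2 : ∀ e : Fin d, c e.succ = c' e.succ := fun e => congrFun htail e
    simp only [h2] at h1
    exact add_right_cancel h1
  funext e
  refine Fin.cases h0 (fun e => ?_) e
  exact congrFun htail e

variable {κ}

/-- The point of the graph of the tuple of polynomials `j` above `x`. -/
def pt (j : Fin κ → Co q d) (x : ZMod q) : Un q κ := (x, fun l => ev (j l) x)

/-- The graph of `j`. -/
noncomputable def graph (j : Fin κ → Co q d) : Finset (Un q κ) := univ.image (pt j)

lemma pt_inj (j : Fin κ → Co q d) : Function.Injective (pt j) := by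
  intro x y h
  exact congrArg Prod.fst h

lemma card_graph (j : Fin κ → Co q d) : (graph j).card = q := by
  rw [graph, card_image_of_injective _ (pt_inj j), card_univ, ZMod.card]

lemma mem_graph (j : Fin κ → Co q d) (p : Un q κ) : p ∈ graph j ↔ ∀ l, p.2 l = ev (j l) p.1 := by
  rw [graph, mem_image]
  constructor
  · rintro ⟨x, _, rfl⟩ l
    rfl
  · intro h
    refine ⟨p.1, mem_univ _, ?_⟩
    rw [pt]
    ext
    · rfl
    · exact (h _).symm

lemma inter_graph_le (j j' : Fin κ → Co q d) (h : j ≠ j') :
    (graph j ∩ graph j').card ≤ d := by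
  obtain ⟨l, hl⟩ : ∃ l, j l ≠ j' l := by
    by_contra hcon
    push Not at hcon
    exact h (funext hcon)
  refine le_trans ?_ (agree_le (j l) (j' l) hl)
  apply card_le_card_of_injOn (fun p => p.1)
  · intro p hp
    rw [mem_coe, mem_inter, mem_graph, mem_graph] at hp
    rw [mem_coe, mem_filter]
    exact ⟨mem_univ _, by rw [← hp.1 l, ← hp.2 l]⟩
  · intro p hp p' hp' hpp
    rw [mem_coe, mem_inter, mem_graph, mem_graph] at hp hp'
    ext
    · exact hpp
    · rw [hp.1, hp'.1]
      simp only at hpp
      rw [hpp]

/-- Few graphs already cover many points. -/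
lemma cover (A : Finset (Fin κ → Co q d)) :
    A.card * q ≤ (A.biUnion graph).card + A.card * A.card * d := by
  induction A using Finset.induction_on with
  | empty => simp
  | insert a A ha ih =>
    rw [card_insert_of_notMem ha, biUnion_insert]
    have h1 : (graph a ∪ A.biUnion graph).card + (graph a ∩ A.biUnion graph).card =
        q + (A.biUnion graph).card := by
      rw [card_union_add_card_inter, card_graph]
    have h2 : (graph a ∩ A.biUnion graph).card ≤ A.card * d := by
      calc (graph a ∩ A.biUnion graph).card = (A.biUnion fun b => graph a ∩ graph b).card := by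
            rw [inter_biUnion]
        _ ≤ ∑ b ∈ A, (graph a ∩ graph b).card := card_biUnion_le
        _ ≤ ∑ _b ∈ A, d := by
            apply sum_le_sum
            intro b hb
            apply inter_graph_le
            rintro rfl
            exact ha hb
        _ = A.card * d := by rw [sum_const, smul_eq_mul]
    nlinarith

/-- Every set with at most `q ^ κ / 2` points is avoided by at least half of all graphs. -/
lemma half_avoid (R : Finset (Un q κ)) (hR : 2 * R.card ≤ q ^ κ) :
    (q ^ (d + 1)) ^ κ ≤ 2 * (univ.filter fun j : Fin κ → Co q d => Disjoint R (graph j)).card := by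
  have hJ : Fintype.card (Fin κ → Co q d) = (q ^ (d + 1)) ^ κ := by
    rw [Fintype.card_fun, Fintype.card_fun, ZMod.card, Fintype.card_fin, Fintype.card_fin]
  have hsplit := card_filter_add_card_filter_not (s := (univ : Finset (Fin κ → Co q d)))
    (fun j => Disjoint R (graph j))
  rw [card_univ, hJ] at hsplit
  have hbad : (univ.filter fun j : Fin κ → Co q d => ¬ Disjoint R (graph j)).card ≤
      R.card * (q ^ d) ^ κ := by
    have hsub : (univ.filter fun j : Fin κ → Co q d => ¬ Disjoint R (graph j)) ⊆
        R.biUnion fun p => univ.filter fun j : Fin κ → Co q d => p ∈ graph j := by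
      intro j hj
      rw [mem_filter] at hj
      obtain ⟨p, hp1, hp2⟩ := not_disjoint_iff.mp hj.2
      rw [mem_biUnion]
      exact ⟨p, hp1, mem_filter.mpr ⟨mem_univ _, hp2⟩⟩
    calc _ ≤ _ := card_le_card hsub
      _ ≤ ∑ p ∈ R, (univ.filter fun j : Fin κ → Co q d => p ∈ graph j).card := card_biUnion_le
      _ ≤ ∑ _p ∈ R, (q ^ d) ^ κ := by
          apply sum_le_sum
          intro p _
          have h3 : (univ.filter fun j : Fin κ → Co q d => p ∈ graph j) =
              Fintype.piFinset fun l => univ.filter fun c : Co q d => ev c p.1 = p.2 l := by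
            ext j
            simp only [mem_filter, mem_univ, true_and, mem_graph, Fintype.mem_piFinset]
            exact ⟨fun h l => (h l).symm, fun h l => (h l).symm⟩
          rw [h3, Fintype.card_piFinset]
          calc ∏ l : Fin κ, (univ.filter fun c : Co q d => ev c p.1 = p.2 l).card
              ≤ ∏ _l : Fin κ, q ^ d := prod_le_prod' fun l _ => fiber_le _ _
            _ = (q ^ d) ^ κ := by rw [prod_const, card_univ, Fintype.card_fin]
      _ = R.card * (q ^ d) ^ κ := by rw [sum_const, smul_eq_mul]
  have h4 : (q ^ (d + 1)) ^ κ = q ^ κ * (q ^ d) ^ κ := by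
    rw [pow_succ, mul_pow, mul_comm]
  have h5 : 2 * R.card * (q ^ d) ^ κ ≤ q ^ κ * (q ^ d) ^ κ := Nat.mul_le_mul_right _ hR
  rw [← h4] at h5
  nlinarith

end inst

/-- Elementary inequality for binomial coefficients. -/
lemma choose_ratio (a u s : ℕ) (h : a ≤ u) :
    a.choose s * u ^ s ≤ u.choose s * a ^ s := by
  have key : a.descFactorial s * u ^ s ≤ u.descFactorial s * a ^ s := by
    induction s with
    | zero => simp
    | succ s ih =>
      rw [Nat.descFactorial_succ, Nat.descFactorial_succ, pow_succ, pow_succ]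
      have h1 : (a - s) * u ≤ (u - s) * a := by
        rcases Nat.le_total a s with h2 | h2
        · rw [Nat.sub_eq_zero_of_le h2]; simp
        · obtain ⟨b, rfl⟩ := Nat.exists_eq_add_of_le h2
          obtain ⟨c, rfl⟩ := Nat.exists_eq_add_of_le h
          have h3 : s + b - s = b := by omega
          have h4 : s + b + c - s = b + c := by omega
          rw [h3, h4]
          nlinarith
      calc (a - s) * a.descFactorial s * (u ^ s * u)
          = ((a - s) * u) * (a.descFactorial s * u ^ s) := by ring
        _ ≤ ((u - s) * a) * (u.descFactorial s * a ^ s) := Nat.mul_le_mul h1 ih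
        _ = _ := by ring
  rw [Nat.descFactorial_eq_factorial_mul_choose, Nat.descFactorial_eq_factorial_mul_choose] at key
  have h2 : s.factorial * (a.choose s * u ^ s) ≤ s.factorial * (u.choose s * a ^ s) := by
    calc _ = s.factorial * a.choose s * u ^ s := by ring
      _ ≤ _ := key
      _ = _ := by ring
  exact Nat.le_of_mul_le_mul_left h2 (Nat.factorial_pos s)

section inst2

variable {q κ d : ℕ} [Fact q.Prime]

/-- Row values: sets of exactly `s` points. -/
abbrev Row (q κ s : ℕ) [Fact q.Prime] : Type := {R : Finset (Un q κ) // R.card = s}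

lemma card_Row (s : ℕ) : Fintype.card (Row q κ s) = (q ^ (κ + 1)).choose s := by
  have h1 : Fintype.card (Un q κ) = q ^ (κ + 1) := by
    rw [Fintype.card_prod, Fintype.card_fun, ZMod.card, Fintype.card_fin, pow_succ, mul_comm]
  rw [Fintype.card_finset_len, h1]

/-- The number of row values avoiding many graphs is small. -/
lemma avoid_few (s L : ℕ) (hs : q ^ κ ≤ 3 * s) (hL : 2 * L * d ≤ q)
    (A : Finset (Fin κ → Co q d)) (hA : L ≤ A.card) :
    Real.exp (L / 6) *
      ((univ.filter fun x : Row q κ s => ∀ j ∈ A, Disjoint x.1 (graph j)).card : ℝ) ≤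
      Fintype.card (Row q κ s) := by
  obtain ⟨A', hA'1, hA'2⟩ := exists_subset_card_eq hA
  set V := A'.biUnion graph with hV
  have hq : 0 < q := (Fact.out : q.Prime).pos
  have hcov : L * q ≤ 2 * V.card := by
    have h1 := cover A'
    rw [hA'2, ← hV] at h1
    have h2 : 2 * (L * L * d) ≤ L * q := by
      calc 2 * (L * L * d) = L * (2 * L * d) := by ring
        _ ≤ L * q := Nat.mul_le_mul_left _ hL
    omega
  set u := q ^ (κ + 1) with hu
  have hcardU : Fintype.card (Un q κ) = u := by
    rw [Fintype.card_prod, Fintype.card_fun, ZMod.card, Fintype.card_fin, hu, pow_succ, mul_comm]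
  have hle : (univ.filter fun x : Row q κ s => ∀ j ∈ A, Disjoint x.1 (graph j)).card ≤
      (u - V.card).choose s := by
    have h1 : (powersetCard s Vᶜ).card = (u - V.card).choose s := by
      rw [card_powersetCard, card_compl, hcardU]
    rw [← h1]
    apply card_le_card_of_injOn (fun x => x.1)
    · intro x hx
      rw [mem_coe, mem_filter] at hx
      rw [mem_coe, mem_powersetCard]
      refine ⟨?_, x.2⟩
      intro p hp
      rw [mem_compl, hV, mem_biUnion]
      rintro ⟨j, hj1, hj2⟩
      exact (disjoint_left.mp (hx.2 j (hA'1 hj1))) hp hj2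
    · intro x _ y _ hxy
      exact Subtype.ext hxy
  have hVu : V.card ≤ u := by rw [← hcardU]; exact card_le_univ _
  have hupos : (0 : ℝ) < u := by rw [hu]; positivity
  have hratio := choose_ratio (u - V.card) u s (Nat.sub_le _ _)
  rw [card_Row, ← hu]
  have hratioR : ((u - V.card).choose s : ℝ) * (u : ℝ) ^ s ≤
      (u.choose s : ℝ) * ((u : ℝ) - V.card) ^ s := by
    have := hratio
    have h2 : (((u - V.card).choose s * u ^ s : ℕ) : ℝ) ≤
      ((u.choose s * (u - V.card) ^ s : ℕ) : ℝ) := by exact_mod_cast this
    push_cast [Nat.cast_sub hVu] at h2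
    exact h2
  have hexp : Real.exp (L / 6) * ((u : ℝ) - V.card) ^ s ≤ (u : ℝ) ^ s := by
    have h1 : (u : ℝ) - V.card ≤ u * Real.exp (-(V.card / u : ℝ)) := by
      have h2 := Real.add_one_le_exp (-(V.card / u : ℝ))
      calc (u : ℝ) - V.card = u * (-(V.card / u : ℝ) + 1) := by field_simp; ring
        _ ≤ _ := mul_le_mul_of_nonneg_left h2 hupos.le
    have h0 : (0 : ℝ) ≤ (u : ℝ) - V.card := by
      have : (V.card : ℝ) ≤ u := by exact_mod_cast hVu
      linarith
    have h3 : (L : ℝ) / 6 ≤ s * (V.card / u) := by
      have hqR : (0 : ℝ) < q := by exact_mod_cast hq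
      have h4 : (L : ℝ) * q ≤ 2 * V.card := by exact_mod_cast hcov
      have h5 : (q : ℝ) ^ κ ≤ 3 * s := by exact_mod_cast hs
      have h6 : (u : ℝ) = q ^ κ * q := by rw [hu]; push_cast; rw [pow_succ]
      rw [h6, ← mul_div_assoc, le_div_iff₀ (by positivity)]
      have h7 : (L : ℝ) * q * q ^ κ ≤ (2 * V.card) * (3 * s) :=
        mul_le_mul h4 h5 (by positivity) (by positivity)
      nlinarith
    calc Real.exp (L / 6) * ((u : ℝ) - V.card) ^ s
        ≤ Real.exp (L / 6) * (u * Real.exp (-(V.card / u : ℝ))) ^ s := by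
          apply mul_le_mul_of_nonneg_left _ (Real.exp_pos _).le
          exact pow_le_pow_left₀ h0 h1 _
      _ = (Real.exp (L / 6) * Real.exp (-(s * (V.card / u)))) * u ^ s := by
          rw [mul_pow, ← Real.exp_nat_mul]
          have : (s : ℝ) * -(V.card / u : ℝ) = -(s * (V.card / u)) := by ring
          rw [this]
          ring
      _ ≤ 1 * (u : ℝ) ^ s := by
          apply mul_le_mul_of_nonneg_right _ (by positivity)
          rw [← Real.exp_add]
          apply Real.exp_le_one_iff.mpr
          linarith
      _ = _ := one_mul _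
  have hexp0 : (0 : ℝ) ≤ (u : ℝ) - V.card := by
    have : (V.card : ℝ) ≤ u := by exact_mod_cast hVu
    linarith
  calc Real.exp (L / 6) *
      ((univ.filter fun x : Row q κ s => ∀ j ∈ A, Disjoint x.1 (graph j)).card : ℝ)
      ≤ Real.exp (L / 6) * ((u - V.card).choose s : ℝ) := by
        apply mul_le_mul_of_nonneg_left _ (Real.exp_pos _).le
        exact_mod_cast hle
    _ ≤ (u.choose s : ℝ) := by
        have hus : (0 : ℝ) < (u : ℝ) ^ s := by positivity
        have h8 : (Real.exp (L / 6) * ((u - V.card).choose s : ℝ)) * (u : ℝ) ^ s ≤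
            (u.choose s : ℝ) * (u : ℝ) ^ s := by
          calc (Real.exp (L / 6) * ((u - V.card).choose s : ℝ)) * (u : ℝ) ^ s
              = Real.exp (L / 6) * (((u - V.card).choose s : ℝ) * (u : ℝ) ^ s) := by ring
            _ ≤ Real.exp (L / 6) * ((u.choose s : ℝ) * ((u : ℝ) - V.card) ^ s) :=
                mul_le_mul_of_nonneg_left hratioR (Real.exp_pos _).le
            _ = (u.choose s : ℝ) * (Real.exp (L / 6) * ((u : ℝ) - V.card) ^ s) := by ring
            _ ≤ _ := mul_le_mul_of_nonneg_left hexp (by positivity)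
        exact le_of_mul_le_mul_right h8 hus

/-- The finite lower bound for the abstract problem. -/
theorem inst_bound {S w : ℕ} (t L l s : ℕ) (hs1 : q ^ κ ≤ 3 * s) (hs2 : 2 * s ≤ q ^ κ)
    (mem : (Co q d → Row q κ s) → Fin S → Fin (2 ^ w))
    (alg : Co q d → (Fin κ → Co q d) → PTree S (Fin (2 ^ w)) Bool)
    (R : ℝ)
    (h1 : ∀ x i j, Disjoint (x i).1 (graph j) →
      (alg i j).run (mem x) = true ∧ (alg i j).cost (mem x) ≤ t)
    (h1' : ∀ x i j, (alg i j).run (mem x) = true → Disjoint (x i).1 (graph j))
    (hL : 0 < L) (hLd : 2 * L * d ≤ q) (hLM : L < (q ^ (d + 1)) ^ κ) (hl : 0 < l)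
    (hR : Real.exp 1 ≤ R) (hS : (S : ℝ) ≤ (t * q ^ (d + 1) : ℕ) * R / Real.exp 1)
    (hpar : (2 * R ^ t) ^ l ≤ ((((q ^ (d + 1)) ^ κ : ℕ) : ℝ) / L) ^ (l - 1)) :
    Real.exp (L / 6) ≤ (R * 2 ^ w) ^ (t * l) := by
  have hq : 0 < q := (Fact.out : q.Prime).pos
  have hι : Fintype.card (Co q d) = q ^ (d + 1) := by
    rw [Fintype.card_fun, ZMod.card, Fintype.card_fin]
  have hJ : Fintype.card (Fin κ → Co q d) = (q ^ (d + 1)) ^ κ := by
    rw [Fintype.card_fun, hι, Fintype.card_fin]
  have hX : 0 < Fintype.card (Row q κ s) := by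
    rw [card_Row]
    apply Nat.choose_pos
    have : q ^ κ ≤ q ^ (κ + 1) := Nat.pow_le_pow_right hq (Nat.le_succ _)
    omega
  refine core (ι := Co q d) (J := Fin κ → Co q d) (X := Row q κ s) t L l
    (fun x j => Disjoint x.1 (graph j)) mem alg ((q ^ (d + 1)) ^ κ) hJ R (Real.exp (L / 6))
    h1 h1' ?_ ?_ hX ?_ hL hLM hl hR ?_ ?_ hpar
  · intro x
    have h := half_avoid (d := d) x.1 (by rw [x.2]; exact hs2)
    convert h
  · intro A hA
    have h := avoid_few s L hs1 hLd A hA
    convert h
  · rw [hι]; positivity
  · rw [hι]; exact hS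
  · apply Real.one_le_exp
    positivity

end inst2

end H447CP
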