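import Mathlib

/-!
# The cell-probe model

A query algorithm is a decision tree: it reads memory cells one after the other, the next cell
may depend on the contents read so far, and finally it answers.  Computation is free.
-/

namespace H447CP

/-- An adaptive query algorithm on a memory of `S` cells with contents in `W`, with answers
in `A`: either it answers, or it reads a cell and continues depending on the content read. -/
inductive PTree (S : ℕ) (W A : Type) : Type
  | ans : A → PTree S W A
  | probe : Fin S → (W → PTree S W A) → PTree S W A

variable {S : ℕ} {W A : Type}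

/-- The answer given on memory `mem`. -/
def PTree.run (mem : Fin S → W) : PTree S W A → A
  | .ans a => a
  | .probe s next => (next (mem s)).run mem

/-- The number of cells read on memory `mem`. -/
def PTree.cost (mem : Fin S → W) : PTree S W A → ℕ
  | .ans _ => 0
  | .probe s next => (next (mem s)).cost mem + 1

/-- The set of cells read on memory `mem`. -/
def PTree.cells (mem : Fin S → W) : PTree S W A → Finset (Fin S)
  | .ans _ => ∅
  | .probe s next => insert s ((next (mem s)).cells mem)

lemma PTree.card_cells_le (mem : Fin S → W) (T : PTree S W A) :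
    (T.cells mem).card ≤ T.cost mem := by
  induction T with
  | ans a => simp [PTree.cells, PTree.cost]
  | probe s next ih =>
    simp only [PTree.cells, PTree.cost]
    exact (Finset.card_insert_le _ _).trans (Nat.add_le_add_right (ih _) 1)

lemma PTree.run_congr (mem mem' : Fin S → W) (T : PTree S W A)
    (h : ∀ s ∈ T.cells mem, mem s = mem' s) :
    T.run mem' = T.run mem ∧ T.cells mem' = T.cells mem := by
  induction T with
  | ans a => simp [PTree.cells, PTree.run]
  | probe s next ih =>
    simp only [PTree.cells, PTree.run] at h ⊢
    have h1 : mem s = mem' s := h s (Finset.mem_insert_self _ _)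
    rw [← h1]
    obtain ⟨h2, h3⟩ := ih (mem s) (fun x hx => h x (Finset.mem_insert_of_mem hx))
    exact ⟨h2, by rw [h3]⟩

/-- Restriction of a memory to the cells of `Γ` (other cells are set to the content `w0`). -/
noncomputable def restr (w0 : W) (Γ : Finset (Fin S)) (mem : Fin S → W) : Fin S → W := by
  classical exact fun s => if s ∈ Γ then mem s else w0

lemma restr_apply_mem (w0 : W) (Γ : Finset (Fin S)) (mem : Fin S → W) {s : Fin S} (hs : s ∈ Γ) :
    restr w0 Γ mem s = mem s := by
  classical
  simp [restr, hs]

lemma restr_apply_not_mem (w0 : W) (Γ : Finset (Fin S)) (mem : Fin S → W) {s : Fin S}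
    (hs : s ∉ Γ) : restr w0 Γ mem s = w0 := by
  classical
  simp [restr, hs]

/-- A run that stays inside `Γ` is the same on the restricted memory. -/
lemma PTree.restr_iff (w0 : W) (Γ : Finset (Fin S)) (mem : Fin S → W) (T : PTree S W Bool) :
    (T.run (restr w0 Γ mem) = true ∧ T.cells (restr w0 Γ mem) ⊆ Γ) ↔
      (T.run mem = true ∧ T.cells mem ⊆ Γ) := by
  constructor
  · rintro ⟨h1, h2⟩
    obtain ⟨h3, h4⟩ := PTree.run_congr (restr w0 Γ mem) mem T
      (fun s hs => restr_apply_mem w0 Γ mem (h2 hs))
    exact ⟨by rw [h3]; exact h1, by rw [h4]; exact h2⟩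
  · rintro ⟨h1, h2⟩
    obtain ⟨h3, h4⟩ := PTree.run_congr mem (restr w0 Γ mem) T
      (fun s hs => (restr_apply_mem w0 Γ mem (h2 hs)).symm)
    exact ⟨by rw [h3]; exact h1, by rw [h4]; exact h2⟩

end H447CP
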