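import Pool.Agent.H447R2.CP.Inst

/-!
# From set families to the abstract problem
-/

namespace H447CP

open Finset
open scoped Classical BigOperators

section trans

variable (q κ d s pad : ℕ) [Fact q.Prime]

/-- Names of the sets of the hard family: rows, columns, one padding set. -/
abbrev Ix : Type := Co q d ⊕ (Fin κ × Co q d) ⊕ Unit

/-- The universe with padding elements. -/
abbrev UT : Type := Un q κ ⊕ Fin pad

variable {q κ d}

/-- The column set of `(l, c)`. -/
noncomputable def col (lc : Fin κ × Co q d) : Finset (Un q κ) :=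
  univ.filter fun p => p.2 lc.1 = ev lc.2 p.1

lemma col_nonempty (lc : Fin κ × Co q d) : (col lc).Nonempty :=
  ⟨(0, fun _ => ev lc.2 0), by simp [col]⟩

/-- Total size of all column sets. -/
noncomputable def colTotal (q κ d : ℕ) [Fact q.Prime] : ℕ :=
  ∑ lc : Fin κ × Co q d, (col lc).card

lemma colTotal_le : colTotal q κ d ≤ κ * q ^ (d + 1) * q ^ (κ + 1) := by
  have h1 : Fintype.card (Un q κ) = q ^ (κ + 1) := by
    rw [Fintype.card_prod, Fintype.card_fun, ZMod.card, Fintype.card_fin, pow_succ, mul_comm]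
  calc colTotal q κ d ≤ ∑ _lc : Fin κ × Co q d, q ^ (κ + 1) := by
        apply sum_le_sum
        intro lc _
        rw [← h1]
        exact card_le_univ _
    _ = κ * q ^ (d + 1) * q ^ (κ + 1) := by
        rw [sum_const, smul_eq_mul, card_univ, Fintype.card_prod, Fintype.card_fun, ZMod.card,
          Fintype.card_fin, Fintype.card_fin]

variable {s pad}

/-- The hard family. -/
noncomputable def famT (x : Co q d → Row q κ s) : Ix q κ d → Finset (UT q κ pad)
  | .inl i => (x i).1.map Function.Embedding.inl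
  | .inr (.inl lc) => (col lc).map Function.Embedding.inl
  | .inr (.inr _) => (univ : Finset (Fin pad)).map Function.Embedding.inr

lemma sum_famT (x : Co q d → Row q κ s) :
    ∑ i, (famT (pad := pad) x i).card = q ^ (d + 1) * s + (colTotal q κ d + pad) := by
  rw [Fintype.sum_sum_type, Fintype.sum_sum_type]
  congr 1
  · simp only [famT, card_map, (x _).2]
    rw [sum_const, smul_eq_mul, card_univ, Fintype.card_fun, ZMod.card, Fintype.card_fin]
  · congr 1
    · simp only [famT, card_map]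
      rfl
    · simp [famT]

lemma famT_nonempty (hs : 0 < s) (hpad : 0 < pad) (x : Co q d → Row q κ s) (i : Ix q κ d) :
    (famT (pad := pad) x i).Nonempty := by
  rcases i with i | lc | u
  · simp only [famT, map_nonempty]
    rw [← card_pos, (x i).2]
    exact hs
  · simp only [famT, map_nonempty]
    exact col_nonempty lc
  · simp only [famT, map_nonempty]
    exact ⟨⟨0, hpad⟩, mem_univ _⟩

/-- The query naming row `i` and the columns `j`. -/
def vidx {m : ℕ} (idx : Ix q κ d ≃ Fin m) (i : Co q d) (j : Fin κ → Co q d) :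
    Fin (κ + 1) → Fin m :=
  Fin.cons (idx (.inl i)) fun l => idx (.inr (.inl (l, j l)))

lemma query_iff {m u : ℕ} (idx : Ix q κ d ≃ Fin m) (emb : UT q κ pad ↪ Fin u)
    (x : Co q d → Row q κ s) (i : Co q d) (j : Fin κ → Co q d) :
    (∀ y : Fin u, ∃ a : Fin (κ + 1),
      y ∉ (famT (pad := pad) x (idx.symm (vidx idx i j a))).map emb) ↔
      Disjoint (x i).1 (graph j) := by
  rw [← not_iff_not, not_disjoint_iff]
  push Not
  constructor
  · rintro ⟨y, hy⟩
    have h0 := hy 0
    simp only [vidx, Fin.cons_zero, Equiv.symm_apply_apply, famT, mem_map] at h0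
    obtain ⟨z, ⟨p, hp, rfl⟩, hy0⟩ := h0
    refine ⟨p, hp, ?_⟩
    rw [mem_graph]
    intro l
    have hl := hy l.succ
    simp only [vidx, Fin.cons_succ, Equiv.symm_apply_apply, famT, mem_map] at hl
    obtain ⟨z, ⟨p', hp', rfl⟩, hyl⟩ := hl
    have h1 := emb.injective (hyl.trans hy0.symm)
    have h2 : p' = p := Sum.inl_injective h1
    rw [h2, col, mem_filter] at hp'
    exact hp'.2
  · rintro ⟨p, hp1, hp2⟩
    refine ⟨emb (.inl p), ?_⟩
    intro a
    rw [mem_graph] at hp2
    refine Fin.cases ?_ (fun l => ?_) a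
    · simp only [vidx, Fin.cons_zero, Equiv.symm_apply_apply, famT, mem_map]
      exact ⟨.inl p, ⟨p, hp1, rfl⟩, rfl⟩
    · simp only [vidx, Fin.cons_succ, Equiv.symm_apply_apply, famT, mem_map]
      exact ⟨.inl p, ⟨p, by rw [col, mem_filter]; exact ⟨mem_univ _, hp2 l⟩, rfl⟩, rfl⟩

end trans

/-- Finite lower bound for set families. -/
theorem family_bound (q κ d s N t L l w : ℕ) [Fact q.Prime]
    (hs1 : q ^ κ ≤ 3 * s) (hs2 : 2 * s ≤ q ^ κ) (hs3 : 0 < s) (hd : 3 ≤ q ^ d)
    (hN : (κ + 1) * q ^ (d + κ + 2) < N)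
    (R : ℝ) (hL : 0 < L) (hLd : 2 * L * d ≤ q) (hLM : L < (q ^ (d + 1)) ^ κ) (hl : 0 < l)
    (hR : Real.exp 1 ≤ R)
    (hpar : (2 * R ^ t) ^ l ≤ ((((q ^ (d + 1)) ^ κ : ℕ) : ℝ) / L) ^ (l - 1))
    (hbig : (R * 2 ^ w) ^ (t * l) < Real.exp (L / 6)) :
    ∃ m ≤ N, ∀ S : ℕ,
      ∀ store : (Fin m → Finset (Fin N)) → Fin S → Fin (2 ^ w),
      ∀ query : (Fin (κ + 1) → Fin m) → PTree S (Fin (2 ^ w)) Bool,
      (∀ F : Fin m → Finset (Fin N), (∀ i, (F i).Nonempty) → ∑ i, (F i).card = N →
        ∀ v : Fin (κ + 1) → Fin m,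
          ((query v).run (store F) = true ↔ ∀ y, ∃ a, y ∉ F (v a)) ∧
          ((∀ y, ∃ a, y ∉ F (v a)) → (query v).cost (store F) ≤ t)) →
      (t * q ^ (d + 1) : ℕ) * R / Real.exp 1 < S := by
  have hq : 0 < q := (Fact.out : q.Prime).pos
  set N0 := q ^ (d + 1) * s + colTotal q κ d with hN0
  have hN0lt : N0 < N := by
    refine lt_of_le_of_lt ?_ hN
    have h1 := colTotal_le (q := q) (κ := κ) (d := d)
    have h2 : q ^ (d + 1) * s ≤ q ^ (d + κ + 2) := by
      calc q ^ (d + 1) * s ≤ q ^ (d + 1) * q ^ κ := Nat.mul_le_mul_left _ (by omega)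
        _ = q ^ (d + 1 + κ) := (pow_add _ _ _).symm
        _ ≤ q ^ (d + κ + 2) := Nat.pow_le_pow_right hq (by omega)
    have h3 : κ * q ^ (d + 1) * q ^ (κ + 1) = κ * q ^ (d + κ + 2) := by
      rw [mul_assoc, ← pow_add]
      congr 2
      ring
    rw [h3] at h1
    calc N0 ≤ q ^ (d + κ + 2) + κ * q ^ (d + κ + 2) := by rw [hN0]; exact Nat.add_le_add h2 h1
      _ = _ := by ring
  obtain ⟨pad, hpad⟩ : ∃ pad, N = N0 + pad := ⟨N - N0, by omega⟩
  have hpadpos : 0 < pad := by omega
  have hUcard : Fintype.card (UT q κ pad) ≤ Fintype.card (Fin N) := by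
    rw [Fintype.card_sum, Fintype.card_prod, Fintype.card_fun, ZMod.card, Fintype.card_fin,
      Fintype.card_fin, Fintype.card_fin]
    have h1 : q * q ^ κ ≤ N0 := by
      have h2 : q ^ (d + 1) * q ^ κ ≤ 3 * (q ^ (d + 1) * s) := by
        calc q ^ (d + 1) * q ^ κ ≤ q ^ (d + 1) * (3 * s) := Nat.mul_le_mul_left _ hs1
          _ = _ := by ring
      have h3 : 3 * (q * q ^ κ) ≤ q ^ (d + 1) * q ^ κ := by
        calc 3 * (q * q ^ κ) ≤ q ^ d * (q * q ^ κ) := Nat.mul_le_mul_right _ hd
          _ = _ := by rw [pow_succ]; ring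
      omega
    omega
  obtain ⟨emb⟩ := Function.Embedding.nonempty_of_card_le hUcard
  set m := Fintype.card (Ix q κ d) with hm
  set idx : Ix q κ d ≃ Fin m := Fintype.equivFin (Ix q κ d) with hidx
  -- the family is admissible
  have hsum : ∀ x : Co q d → Row q κ s,
      ∑ i, ((famT (pad := pad) x (idx.symm i)).map emb).card = N := by
    intro x
    simp only [card_map]
    rw [Equiv.sum_comp idx.symm (fun i => (famT (pad := pad) x i).card), sum_famT, hpad, hN0]
    ring
  have hne : ∀ x : Co q d → Row q κ s, ∀ i,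
      ((famT (pad := pad) x (idx.symm i)).map emb).Nonempty := by
    intro x i
    rw [map_nonempty]
    exact famT_nonempty hs3 hpadpos x _
  have hrow : Nonempty (Row q κ s) := by
    rw [← Fintype.card_pos_iff, card_Row]
    apply Nat.choose_pos
    have : q ^ κ ≤ q ^ (κ + 1) := Nat.pow_le_pow_right hq (Nat.le_succ _)
    omega
  refine ⟨m, ?_, ?_⟩
  · obtain ⟨r⟩ := hrow
    rw [← hsum fun _ => r]
    calc m = ∑ _i : Fin m, 1 := by simp
      _ ≤ _ := sum_le_sum fun i _ => card_pos.mpr (hne _ i)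
  · intro S store query hsolve
    by_contra hcon
    push Not at hcon
    have := inst_bound (q := q) (κ := κ) (d := d) (S := S) (w := w) t L l s hs1 hs2
      (fun x => store fun i => (famT (pad := pad) x (idx.symm i)).map emb)
      (fun i j => query (vidx idx i j)) R ?_ ?_ hL hLd hLM hl hR hcon hpar
    · exact absurd this (not_le.mpr hbig)
    · intro x i j hdis
      obtain ⟨h1, h2⟩ := hsolve _ (hne x) (hsum x) (vidx idx i j)
      have h3 := (query_iff idx emb x i j).mpr hdis
      exact ⟨h1.mpr h3, h2 h3⟩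
    · intro x i j hrun
      obtain ⟨h1, _⟩ := hsolve _ (hne x) (hsum x) (vidx idx i j)
      exact (query_iff idx emb x i j).mp (h1.mp hrun)

end H447CP
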